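import Pool.Agent.H3.RCR.Util

/-! # RCR, module A16: lifting contractions -/

namespace Pool.Agent.H3.RCR.A16

open Relation

theorem sph_red (h2 : A2Stmt) {U V : Set ℕ} {F G : Finset Tri} (hF : Sph F) (h : Red U V F G) :
    Sph G := by
  induction h with
  | refl => exact hF
  | tail _ hs ih =>
    obtain ⟨u, v, -, -, hok, rfl⟩ := hs
    exact h2 _ _ _ ih hok

theorem sub1_ne {u v x : ℕ} (h : x ≠ u) : sub1 u v x = x := by simp [sub1, h]
theorem sub1_eq (u v : ℕ) : sub1 u v u = v := by simp [sub1]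

/-- One step -/
theorem step (h0 : A0Stmt) (h1 : A1Stmt) (h2 : A2Stmt) (h11 : A11Stmt) {F S : Finset Tri}
    {a b c u v : ℕ} (hF : Sph F) (hS : Side3 F a b c S) (huS : u ∉ verts S)
    (hok : Ok ((F \ S) ∪ rots (a, b, c)) u v) :
    Ok F u v ∧ Side3 (contr F u v) a b c S ∧
      contr ((F \ S) ∪ rots (a, b, c)) u v = (contr F u v \ S) ∪ rots (a, b, c) := by
  obtain ⟨-, -, -, hinn, haS, hbS, hcS, -, -, -, -⟩ := (h0.2 F a b c hF).2 S hS
  have hX : Sph ((F \ S) ∪ rots (a, b, c)) := sph_red h2 hF (h11 F a b c S hF hS)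
  set X := (F \ S) ∪ rots (a, b, c) with hXdef
  have hab := hF.adj_ne hS.ab
  have hbc := hF.adj_ne hS.bc
  have hca := hF.adj_ne hS.ca
  have hua : u ≠ a := fun e => huS (e ▸ haS)
  have hub : u ≠ b := fun e => huS (e ▸ hbS)
  have huc : u ≠ c := fun e => huS (e ▸ hcS)
  have hrotX : RotC X := hX.rot
  have habcX : (a, b, c) ∈ X := Finset.mem_union_right _ (self_mem_rots _)
  have hjab := (hS.jump a b).2 (Or.inl ⟨rfl, rfl⟩)
  -- vertices of `X` in `verts S`
  have hinX : ∀ w ∈ verts X, w ∈ verts S → w = a ∨ w = b ∨ w = c := by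
    intro w hw hwS
    by_contra hn
    push Not at hn
    obtain ⟨x, y, hxy⟩ := mem_verts.1 hw
    rcases Finset.mem_union.1 hxy with h | h
    · rw [Finset.mem_sdiff] at h
      exact h.2 (hinn w hwS hn.1 hn.2.1 hn.2.2 x y h.1)
    · have := isV_of_mem_rots h (isV_fst _)
      rcases this with h | h | h
      · exact hn.1 h
      · exact hn.2.1 h
      · exact hn.2.2 h
  -- faces of `X` at `u` are faces of `F`
  have huX : ∀ t ∈ X, isV u t → t ∈ F ∧ t ∉ S := by
    intro t ht hu
    rcases Finset.mem_union.1 ht with h | h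
    · exact Finset.mem_sdiff.1 h
    · exfalso
      rcases isV_of_mem_rots h hu with h | h | h
      · exact hua h
      · exact hub h
      · exact huc h
  have huF : ∀ t ∈ F, isV u t → t ∈ X := by
    intro t ht hu
    refine Finset.mem_union_left _ (Finset.mem_sdiff.2 ⟨ht, fun h => huS ?_⟩)
    exact isV_mem_verts hS.rot h hu
  have hvX : v ∈ verts X := hX.mem_right hok.adj
  have hadjX : ∀ x y, x ∈ verts X → y ∈ verts X → Adj F x y → Adj X x y := by
    intro x y hx hy ⟨w, hw⟩
    by_cases hwS : (x, y, w) ∈ S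
    · obtain ⟨w', hw'⟩ := hF.opp _ _ _ hw
      by_cases hw'S : (y, x, w') ∈ S
      · have hxS : x ∈ verts S := mem_verts.2 ⟨_, _, hwS⟩
        have hyS : y ∈ verts S := mem_verts.2 ⟨_, _, hw'S⟩
        have hne : x ≠ y := hF.ne _ _ _ hw
        have hXab : Adj X a b := ⟨c, habcX⟩
        have hXbc : Adj X b c := ⟨a, hrotX _ _ _ habcX⟩
        have hXca : Adj X c a := ⟨b, hrotX _ _ _ (hrotX _ _ _ habcX)⟩
        rcases hinX x hx hxS with rfl | rfl | rfl <;> rcases hinX y hy hyS with rfl | rfl | rfl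
        · exact absurd rfl hne
        · exact hXab
        · exact hX.adj_symm hXca
        · exact hX.adj_symm hXab
        · exact absurd rfl hne
        · exact hXbc
        · exact hXca
        · exact hX.adj_symm hXbc
        · exact absurd rfl hne
      · exact hX.adj_symm ⟨w', Finset.mem_union_left _ (Finset.mem_sdiff.2 ⟨hw', hw'S⟩)⟩
    · exact ⟨w, Finset.mem_union_left _ (Finset.mem_sdiff.2 ⟨hw, hwS⟩)⟩
  -- the edge may be contracted in `F`
  have hokF : Ok F u v := by
    refine ⟨?_, ?_, ?_⟩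
    · obtain ⟨w, hw⟩ := hok.adj
      exact ⟨w, (huX _ hw (Or.inl rfl)).1⟩
    · intro w ⟨x, hx⟩ hvw
      have h3 : (u, w, x) ∈ X := huF _ hx (Or.inl rfl)
      have hwX : w ∈ verts X := hX.mem_right ⟨x, h3⟩
      rcases hok.apex w ⟨x, h3⟩ (hadjX _ _ hvX hwX hvw) with h | h
      · exact Or.inl (huX _ h (Or.inl rfl)).1
      · exact Or.inr (huX _ h (Or.inr (Or.inl rfl))).1
    · rintro w ⟨h3, h4⟩
      exact hok.dist w ⟨huF _ h3 (Or.inl rfl), huF _ h4 (Or.inr (Or.inl rfl))⟩
  obtain ⟨hPre', -, -, hAdj', -, hkeep, -, -⟩ := h1 F u v hF.toPre hokF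
  have hSnu : ∀ t ∈ S, ¬ isV u t := fun t ht hu => huS (isV_mem_verts hS.rot ht hu)
  have hSF' : S ⊆ contr F u v := fun t ht => hkeep t (hS.sub ht) (hSnu t ht)
  have hadjF' : ∀ x y, x ≠ u → y ≠ u → Adj F x y → Adj (contr F u v) x y := by
    intro x y hx hy h
    exact (hAdj' x y).2 ⟨hF.adj_ne h, x, y, h, sub1_ne hx, sub1_ne hy⟩
  have hside : Side3 (contr F u v) a b c S := by
    refine ⟨hadjF' _ _ hua.symm hub.symm hS.ab, hadjF' _ _ hub.symm huc.symm hS.bc,
      hadjF' _ _ huc.symm hua.symm hS.ca, hSF', hS.rot, ?_⟩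
    intro x y
    rw [← hS.jump]
    constructor
    · rintro ⟨⟨c', hc'⟩, d, hd, hdS⟩
      obtain ⟨e, he⟩ := hF.opp _ _ _ (hS.sub hc')
      refine ⟨⟨c', hc'⟩, e, he, fun heS => hdS ?_⟩
      have : d = e := hPre'.uniq _ _ _ _ hd (hSF' heS)
      rw [this]; exact heS
    · rintro ⟨⟨c', hc'⟩, d, hd, hdS⟩
      obtain ⟨e, he⟩ := hPre'.opp _ _ _ (hSF' hc')
      refine ⟨⟨c', hc'⟩, e, he, fun heS => hdS ?_⟩
      have : d = e := hF.uniq _ _ _ _ hd (hS.sub heS)
      rw [this]; exact heS
  refine ⟨hokF, hside, ?_⟩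
  -- triangles in `S` with corners in `X`
  have htri : ∀ x y z, (x, y, z) ∈ S → x ∈ verts X → y ∈ verts X → z ∈ verts X →
      (x, y, z) ∈ rots (a, b, c) := by
    intro x y z h hx hy hz
    have r1 := hS.rot _ _ _ h
    have r2 := hS.rot _ _ _ r1
    have hxS : x ∈ verts S := mem_verts.2 ⟨_, _, h⟩
    have hyS : y ∈ verts S := mem_verts.2 ⟨_, _, r1⟩
    have hzS : z ∈ verts S := mem_verts.2 ⟨_, _, r2⟩
    obtain ⟨n1, n2, n3⟩ := hF.nd (hS.sub h)
    obtain ⟨-, d, hd, hdS⟩ := hjab
    have hno : (b, a, c) ∉ S := by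
      intro h'
      have : c = d := hF.uniq _ _ _ _ (hS.sub h') hd
      subst this
      exact hdS h'
    rcases hinX x hx hxS with rfl | rfl | rfl <;> rcases hinX y hy hyS with rfl | rfl | rfl <;>
      rcases hinX z hz hzS with rfl | rfl | rfl <;>
      first
        | exact absurd rfl n1
        | exact absurd rfl n2
        | exact absurd rfl n3
        | exact absurd h hno
        | exact absurd r1 hno
        | exact absurd r2 hno
        | simp [rots]
  ext t
  constructor
  · intro ht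
    obtain ⟨hnd, t', ht', rfl⟩ := mem_quo.1 ht
    rcases Finset.mem_union.1 ht' with h | h
    · rw [Finset.mem_sdiff] at h
      have hF' : mapT (sub1 u v) t' ∈ contr F u v := mem_quo.2 ⟨hnd, t', h.1, rfl⟩
      by_cases hin : mapT (sub1 u v) t' ∈ S
      · apply Finset.mem_union_right
        have hV : ∀ x, isV x t' → sub1 u v x ∈ verts X := by
          intro x hx
          by_cases e : x = u
          · subst e; rw [sub1_eq]; exact hvX
          · rw [sub1_ne e]; exact isV_mem_verts hrotX ht' hx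
        exact htri _ _ _ hin (hV _ (Or.inl rfl)) (hV _ (Or.inr (Or.inl rfl)))
          (hV _ (Or.inr (Or.inr rfl)))
      · exact Finset.mem_union_left _ (Finset.mem_sdiff.2 ⟨hF', hin⟩)
    · apply Finset.mem_union_right
      have hV : ∀ x, isV x t' → sub1 u v x = x := by
        intro x hx
        apply sub1_ne
        rcases isV_of_mem_rots h hx with h | h | h
        · exact fun e => hua (e.symm.trans h)
        · exact fun e => hub (e.symm.trans h)
        · exact fun e => huc (e.symm.trans h)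
      have : mapT (sub1 u v) t' = t' := by
        simp only [mapT, hV _ (Or.inl rfl), hV _ (Or.inr (Or.inl rfl)), hV _ (Or.inr (Or.inr rfl))]
      rw [this]; exact h
  · intro ht
    rcases Finset.mem_union.1 ht with h | h
    · rw [Finset.mem_sdiff] at h
      obtain ⟨hnd, t', ht', rfl⟩ := mem_quo.1 h.1
      refine mem_quo.2 ⟨hnd, t', ?_, rfl⟩
      refine Finset.mem_union_left _ (Finset.mem_sdiff.2 ⟨ht', fun h' => h.2 ?_⟩)
      have hV : ∀ x, isV x t' → sub1 u v x = x := by
        intro x hx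
        apply sub1_ne
        intro e
        exact hSnu _ h' (e ▸ hx)
      have : mapT (sub1 u v) t' = t' := by
        simp only [mapT, hV _ (Or.inl rfl), hV _ (Or.inr (Or.inl rfl)), hV _ (Or.inr (Or.inr rfl))]
      rw [this]; exact h'
    · have hV : ∀ x, isV x t → sub1 u v x = x := by
        intro x hx
        apply sub1_ne
        rcases isV_of_mem_rots h hx with h | h | h
        · exact fun e => hua (e.symm.trans h)
        · exact fun e => hub (e.symm.trans h)
        · exact fun e => huc (e.symm.trans h)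
      have e1 : mapT (sub1 u v) t = t := by
        simp only [mapT, hV _ (Or.inl rfl), hV _ (Or.inr (Or.inl rfl)), hV _ (Or.inr (Or.inr rfl))]
      have htX : t ∈ X := Finset.mem_union_right _ h
      refine mem_quo.2 ⟨?_, t, htX, e1⟩
      obtain ⟨x, y, z⟩ := t
      exact hX.nd htX

end A16

open A16 Relation

theorem a16 (h0 : A0Stmt) (h1 : A1Stmt) (h2 : A2Stmt) (h11 : A11Stmt) : A16Stmt := by
  intro F S a b c U V X' hF hS hU hred
  generalize hX : (F \ S) ∪ rots (a, b, c) = X at hred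
  induction hred using ReflTransGen.head_induction_on generalizing F with
  | refl => exact ⟨F, ReflTransGen.refl, hS, hX.symm, rfl⟩
  | @head X Y hXY _ ih =>
    obtain ⟨u, v, hu, hv, hok, rfl⟩ := hXY
    subst hX
    have huS : u ∉ verts S := fun h => hU u h hu
    have hsX : Sph ((F \ S) ∪ rots (a, b, c)) := sph_red h2 hF (h11 F a b c S hF hS)
    obtain ⟨hokF, hside, heq⟩ := step h0 h1 h2 h11 hF hS huS hok
    obtain ⟨F', hred', hside', heq', hcard⟩ := ih (contr F u v) (h2 _ _ _ hF hokF) hside heq.symm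
    refine ⟨F', ReflTransGen.head ⟨u, v, hu, hv, hokF, rfl⟩ hred', hside', heq', ?_⟩
    obtain ⟨-, e1, -⟩ := h1 F u v hF.toPre hokF
    obtain ⟨-, e2, -⟩ := h1 _ u v hsX.toPre hok
    have f1 : u ∈ verts F := Pre.mem_left hokF.adj
    have f2 : u ∈ verts ((F \ S) ∪ rots (a, b, c)) := Pre.mem_left hok.adj
    rw [e1, e2] at hcard
    have g1 := Finset.card_erase_add_one f1
    have g2 := Finset.card_erase_add_one f2
    omega

end Pool.Agent.H3.RCR
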