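import Pool.Agent.H3.RCR.Util

/-! # RCR, module A19: a chord cuts a side into two sides -/

namespace Pool.Agent.H3.RCR.A19

/-- the indicator function -/
noncomputable def ind (P : Prop) : ℤ := by
  classical exact if P then 1 else 0

theorem ind_pos {P : Prop} (h : P) : ind P = 1 := by simp [ind, h]
theorem ind_neg {P : Prop} (h : ¬ P) : ind P = 0 := by simp [ind, h]
theorem ind_congr {P Q : Prop} (h : P ↔ Q) : ind P = ind Q := by rw [propext h]
theorem ind_cases (P : Prop) : (P ∧ ind P = 1) ∨ (¬ P ∧ ind P = 0) := by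
  by_cases h : P
  · exact Or.inl ⟨h, ind_pos h⟩
  · exact Or.inr ⟨h, ind_neg h⟩

theorem jump_iff {F S : Finset Tri} (hF : Pre F) (hS : S ⊆ F) {x y p q : ℕ} (h1 : (x, y, p) ∈ F)
    (h2 : (y, x, q) ∈ F) : Jump F S x y ↔ (x, y, p) ∈ S ∧ (y, x, q) ∉ S := by
  constructor
  · rintro ⟨⟨c, hc⟩, d, hd, hdS⟩
    have e1 : c = p := hF.uniq _ _ _ _ (hS hc) h1
    have e2 : d = q := hF.uniq _ _ _ _ hd h2
    subst e1; subst e2
    exact ⟨hc, hdS⟩
  · rintro ⟨h3, h4⟩
    exact ⟨⟨p, h3⟩, q, h2, h4⟩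

theorem ind_jump {F S : Finset Tri} (hF : Pre F) (hS : S ⊆ F) {x y p q : ℕ} (h1 : (x, y, p) ∈ F)
    (h2 : (y, x, q) ∈ F) : ind ((x, y, p) ∈ S) - ind ((y, x, q) ∈ S) =
      ind (Jump F S x y) - ind (Jump F S y x) := by
  rw [ind_congr (jump_iff hF hS h1 h2), ind_congr (jump_iff hF hS h2 h1)]
  rcases ind_cases ((x, y, p) ∈ S) with ⟨a1, a2⟩ | ⟨a1, a2⟩ <;>
  rcases ind_cases ((y, x, q) ∈ S) with ⟨b1, b2⟩ | ⟨b1, b2⟩ <;>
  simp [a1, b1, ind]

theorem val_lt {m n : ℕ} (h : n < m) : ((n : ZMod m)).val = n := ZMod.val_cast_of_lt h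

end A19

open A19

theorem a19 (h4 : A4Stmt) (h6 : A6Stmt) : A19Stmt := by
  intro F hF m c S hc hS i l z hl hlm hz
  have hm0 : NeZero m := ⟨by omega⟩
  have hl0 : NeZero (l + 1) := ⟨by omega⟩
  -- injectivity in terms of natural numbers
  have hinj : ∀ j k : ℕ, j < m → k < m → c (i + (j : ZMod m)) = c (i + (k : ZMod m)) → j = k := by
    intro j k hj hk e
    have e1 := hc.inj e
    have e2 : (j : ZMod m) = (k : ZMod m) := add_left_cancel e1
    have e3 := congrArg ZMod.val e2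
    rwa [val_lt hj, val_lt hk] at e3
  have hm : ((m : ℕ) : ZMod m) = 0 := ZMod.natCast_self m
  have hmc : c (i + ((m : ℕ) : ZMod m)) = c i := by rw [hm, add_zero]
  have h0c : c (i + ((0 : ℕ) : ZMod m)) = c i := by rw [Nat.cast_zero, add_zero]
  have hadj : ∀ k : ℕ, Adj F (c (i + (k : ZMod m))) (c (i + ((k + 1 : ℕ) : ZMod m))) := by
    intro k
    have := hc.adj (i + (k : ZMod m))
    rwa [add_assoc, ← Nat.cast_succ] at this
  have hchord : Adj F (c i) (c (i + (l : ZMod m))) := ⟨z, hS.sub hz⟩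
  have hchord' : Adj F (c (i + (l : ZMod m))) (c i) := hF.adj_symm hchord
  -- a general description of the two cycles
  have hval : ∀ (n : ℕ) (k : ZMod (n + 1)), k.val < n + 1 := fun n k => ZMod.val_lt k
  have hsucc : ∀ (n : ℕ) (k : ZMod (n + 1)), (k.val < n ∧ (k + 1).val = k.val + 1) ∨
      (k.val = n ∧ (k + 1).val = 0) := by
    intro n k
    have h1 := ZMod.val_lt k
    have e : k + 1 = ((k.val + 1 : ℕ) : ZMod (n + 1)) := by
      rw [Nat.cast_succ, ZMod.natCast_zmod_val]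
    rcases Nat.lt_or_ge k.val n with h | h
    · left
      refine ⟨h, ?_⟩
      rw [e, val_lt (by omega)]
    · right
      have h2 : k.val = n := by omega
      refine ⟨h2, ?_⟩
      rw [e, h2, ZMod.natCast_self, ZMod.val_zero]
  let c1 : ZMod (l + 1) → ℕ := fun k => c (i + (k.val : ZMod m))
  let c2 : ZMod (m - l + 1) → ℕ := fun k => c (i + (l : ZMod m) + (k.val : ZMod m))
  have c2e : ∀ k, c2 k = c (i + ((l + k.val : ℕ) : ZMod m)) := by
    intro k
    show c (i + (l : ZMod m) + (k.val : ZMod m)) = _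
    rw [Nat.cast_add, add_assoc]
  have hc1 : Cyc F c1 := by
    refine ⟨by omega, ?_, ?_⟩
    · intro j k e
      have := hinj _ _ (lt_of_lt_of_le (ZMod.val_lt j) (by omega))
        (lt_of_lt_of_le (ZMod.val_lt k) (by omega)) e
      exact ZMod.val_injective _ this
    · intro k
      show Adj F (c (i + (k.val : ZMod m))) (c (i + ((k + 1).val : ZMod m)))
      rcases hsucc l k with ⟨h1, h2⟩ | ⟨h1, h2⟩
      · rw [h2]; exact hadj _
      · rw [h1, h2, h0c]; exact hchord'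
  have hc2 : Cyc F c2 := by
    refine ⟨by omega, ?_, ?_⟩
    · intro j k e
      rw [c2e, c2e] at e
      have hj := ZMod.val_lt j
      have hk := ZMod.val_lt k
      -- the last index is the index zero
      have red : ∀ n : ℕ, l ≤ n → n ≤ m → ∃ n' < m, c (i + (n : ZMod m)) = c (i + (n' : ZMod m)) ∧
          ((n' = n ∧ n < m) ∨ (n' = 0 ∧ n = m)) := by
        intro n _ hn
        rcases Nat.lt_or_ge n m with h | h
        · exact ⟨n, h, rfl, Or.inl ⟨rfl, h⟩⟩
        · have : n = m := le_antisymm hn h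
          subst this
          exact ⟨0, by omega, by rw [hmc, h0c], Or.inr ⟨rfl, rfl⟩⟩
      obtain ⟨j', hj', ej, hj2⟩ := red (l + j.val) (by omega) (by omega)
      obtain ⟨k', hk', ek, hk2⟩ := red (l + k.val) (by omega) (by omega)
      rw [ej, ek] at e
      have := hinj _ _ hj' hk' e
      apply ZMod.val_injective
      omega
    · intro k
      rw [c2e, c2e]
      rcases hsucc (m - l) k with ⟨h1, h2⟩ | ⟨h1, h2⟩
      · rw [h2]; exact hadj _
      · rw [h1, h2, Nat.add_sub_cancel' (by omega), hmc, add_zero]; exact hchord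
  obtain ⟨S1, hS1⟩ := (h6 F hF _ c1).1 hc1
  obtain ⟨S2, hS2⟩ := (h6 F hF _ c2).1 hc2
  -- the three sets of jumps
  let Q : ℕ → ℕ → ℕ → Prop := fun k x y => x = c (i + (k : ZMod m)) ∧ y = c (i + ((k + 1 : ℕ) : ZMod m))
  let K : ℕ → ℕ → Prop := fun x y => x = c i ∧ y = c (i + (l : ZMod m))
  have hJ : ∀ x y, Jump F S x y ↔ (∃ k < l, Q k x y) ∨ ∃ k, l ≤ k ∧ k < m ∧ Q k x y := by
    intro x y
    rw [hS.jump]
    constructor
    · rintro ⟨j, rfl, rfl⟩
      have hk : (j - i).val < m := ZMod.val_lt _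
      have e : i + (((j - i).val : ℕ) : ZMod m) = j := by
        rw [ZMod.natCast_zmod_val]; ring
      have q : Q (j - i).val (c j) (c (j + 1)) := by
        refine ⟨by rw [e], ?_⟩
        rw [Nat.cast_succ, ← add_assoc, e]
      rcases Nat.lt_or_ge (j - i).val l with h | h
      · exact Or.inl ⟨_, h, q⟩
      · exact Or.inr ⟨_, h, hk, q⟩
    · rintro (⟨k, -, rfl, rfl⟩ | ⟨k, -, -, rfl, rfl⟩) <;>
      exact ⟨i + (k : ZMod m), rfl, by rw [Nat.cast_succ, ← add_assoc]⟩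
  have hJ1 : ∀ x y, Jump F S1 x y ↔ (∃ k < l, Q k x y) ∨ K y x := by
    intro x y
    rw [hS1.jump]
    constructor
    · rintro ⟨k, rfl, rfl⟩
      rcases hsucc l k with ⟨h1, h2⟩ | ⟨h1, h2⟩
      · left
        refine ⟨k.val, h1, rfl, ?_⟩
        show c (i + ((k + 1).val : ZMod m)) = _
        rw [h2]
      · right
        refine ⟨?_, ?_⟩
        · show c (i + ((k + 1).val : ZMod m)) = _
          rw [h2, h0c]
        · show c (i + (k.val : ZMod m)) = _
          rw [h1]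
    · rintro (⟨k, hk, rfl, rfl⟩ | ⟨rfl, rfl⟩)
      · refine ⟨((k : ℕ) : ZMod (l + 1)), ?_, ?_⟩
        · show _ = c (i + ((((k : ℕ) : ZMod (l + 1)).val : ℕ) : ZMod m))
          rw [val_lt (by omega)]
        · show _ = c (i + (((((k : ℕ) : ZMod (l + 1)) + 1).val : ℕ) : ZMod m))
          rw [← Nat.cast_succ, val_lt (by omega)]
      · refine ⟨((l : ℕ) : ZMod (l + 1)), ?_, ?_⟩
        · show _ = c (i + ((((l : ℕ) : ZMod (l + 1)).val : ℕ) : ZMod m))
          rw [val_lt (by omega)]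
        · show _ = c (i + (((((l : ℕ) : ZMod (l + 1)) + 1).val : ℕ) : ZMod m))
          rw [← Nat.cast_succ, ZMod.natCast_self, ZMod.val_zero, h0c]
  have hJ2 : ∀ x y, Jump F S2 x y ↔ (∃ k, l ≤ k ∧ k < m ∧ Q k x y) ∨ K x y := by
    intro x y
    rw [hS2.jump]
    constructor
    · rintro ⟨k, rfl, rfl⟩
      rw [c2e, c2e]
      rcases hsucc (m - l) k with ⟨h1, h2⟩ | ⟨h1, h2⟩
      · left
        refine ⟨l + k.val, by omega, by omega, rfl, ?_⟩
        rw [h2]; rfl
      · right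
        rw [h1, h2, Nat.add_sub_cancel' (by omega), hmc, add_zero]
        exact ⟨rfl, rfl⟩
    · rintro (⟨k, hk1, hk2, rfl, rfl⟩ | ⟨rfl, rfl⟩)
      · refine ⟨((k - l : ℕ) : ZMod (m - l + 1)), ?_, ?_⟩
        · rw [c2e, val_lt (by omega), Nat.add_sub_cancel' hk1]
        · have e : l + (k - l).succ = k + 1 := by omega
          rw [c2e, ← Nat.cast_succ, val_lt (by omega), e]
      · refine ⟨((m - l : ℕ) : ZMod (m - l + 1)), ?_, ?_⟩
        · rw [c2e, val_lt (by omega), Nat.add_sub_cancel' (by omega), hmc]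
        · rw [c2e, ← Nat.cast_succ, ZMod.natCast_self, ZMod.val_zero, add_zero]
  -- exclusions
  have hQQ : ∀ x y j k, j < m → k < m → Q j x y → Q k x y → j = k := by
    rintro x y j k hj hk ⟨h1, -⟩ ⟨h2, -⟩
    exact hinj _ _ hj hk (h1.symm.trans h2)
  have hQK : ∀ x y k, k < m → Q k x y → ¬ K x y := by
    rintro x y k hk ⟨h1, h2⟩ ⟨h3, h4⟩
    have e1 := hinj k 0 hk (by omega) (by rw [h0c, ← h1, h3])
    subst e1
    have e2 := hinj 1 l (by omega) (by omega) (by rw [← h4, h2])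
    omega
  have hQK' : ∀ x y k, k < m → Q k x y → ¬ K y x := by
    rintro x y k hk ⟨h1, h2⟩ ⟨h3, h4⟩
    have e1 := hinj k l hk (by omega) (by rw [← h1, h4])
    subst e1
    have e2 := hinj (k + 1) 0 (by omega) (by omega) (by rw [← h2, h3, h0c])
    omega
  have hKK : ∀ x y, K x y → ¬ K y x := by
    rintro x y ⟨h1, h2⟩ ⟨h3, h4⟩
    have e2 := hinj l 0 (by omega) (by omega) (by rw [← h2, h3, h0c])
    omega
  have hA : ∀ x y, ind (Jump F S1 x y) + ind (Jump F S2 x y) =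
      ind (Jump F S x y) + ind (K x y) + ind (K y x) := by
    intro x y
    rw [ind_congr (hJ x y), ind_congr (hJ1 x y), ind_congr (hJ2 x y)]
    by_cases hq1 : ∃ k < l, Q k x y
    · obtain ⟨k, hk, hq⟩ := hq1
      have n1 : ¬ ∃ k, l ≤ k ∧ k < m ∧ Q k x y := by
        rintro ⟨k', h1, h2, h3⟩
        have := hQQ x y k k' (by omega) h2 hq h3
        omega
      have n2 := hQK x y k (by omega) hq
      have n3 := hQK' x y k (by omega) hq
      rw [ind_pos (Or.inl ⟨k, hk, hq⟩), ind_neg (not_or.2 ⟨n1, n2⟩), ind_pos (Or.inl ⟨k, hk, hq⟩),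
        ind_neg n2, ind_neg n3]
      norm_num
    · by_cases hq2 : ∃ k, l ≤ k ∧ k < m ∧ Q k x y
      · obtain ⟨k, hk1, hk2, hq⟩ := hq2
        have n2 := hQK x y k hk2 hq
        have n3 := hQK' x y k hk2 hq
        rw [ind_neg (not_or.2 ⟨hq1, n3⟩), ind_pos (Or.inl ⟨k, hk1, hk2, hq⟩),
          ind_pos (Or.inr ⟨k, hk1, hk2, hq⟩), ind_neg n2, ind_neg n3]
        norm_num
      · have e0 : ind ((∃ k < l, Q k x y) ∨ ∃ k, l ≤ k ∧ k < m ∧ Q k x y) = 0 :=
          ind_neg (not_or.2 ⟨hq1, hq2⟩)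
        have e1 : ind ((∃ k < l, Q k x y) ∨ K y x) = ind (K y x) :=
          ind_congr (or_iff_right hq1)
        have e2 : ind ((∃ k, l ≤ k ∧ k < m ∧ Q k x y) ∨ K x y) = ind (K x y) :=
          ind_congr (or_iff_right hq2)
        rw [e0, e1, e2]
        ring
  -- the function is constant
  let g : Tri → ℤ := fun t => ind (t ∈ S1) + ind (t ∈ S2) - ind (t ∈ S)
  have hrotI : ∀ (T : Finset Tri), RotC T → ∀ x y w, ind ((x, y, w) ∈ T) = ind ((y, w, x) ∈ T) := by
    intro T hT x y w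
    exact ind_congr ⟨fun h => hT _ _ _ h, fun h => hT _ _ _ (hT _ _ _ h)⟩
  have hg0 : g (c i, c (i + (l : ZMod m)), z) = 0 := by
    have hzF := hS.sub hz
    obtain ⟨z', hz'⟩ := hF.opp _ _ _ hzF
    have j1 : Jump F S1 (c (i + (l : ZMod m))) (c i) := (hJ1 _ _).2 (Or.inr ⟨rfl, rfl⟩)
    have j2 : Jump F S2 (c i) (c (i + (l : ZMod m))) := (hJ2 _ _).2 (Or.inr ⟨rfl, rfl⟩)
    have k1 := (jump_iff hF.toPre hS1.sub hz' hzF).1 j1
    have k2 := (jump_iff hF.toPre hS2.sub hzF hz').1 j2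
    show ind _ + ind _ - ind _ = 0
    rw [ind_neg k1.2, ind_pos k2.1, ind_pos hz]
    norm_num
  have hg : ∀ t ∈ F, g t = 0 := by
    intro t ht
    refine h4 F hF (fun t => g t = 0) ?_ ?_ _ (hS.sub hz) t ht hg0
    · intro x y w h e
      show ind _ + ind _ - ind _ = 0
      rw [← hrotI S1 hS1.rot, ← hrotI S2 hS2.rot, ← hrotI S hS.rot]
      exact e
    · intro x y w d h1 h2 e
      have e1 := ind_jump hF.toPre hS1.sub h1 h2
      have e2 := ind_jump hF.toPre hS2.sub h1 h2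
      have e3 := ind_jump hF.toPre hS.sub h1 h2
      have a1 := hA x y
      have a2 := hA y x
      show ind _ + ind _ - ind _ = 0
      have e' : ind ((x, y, w) ∈ S1) + ind ((x, y, w) ∈ S2) - ind ((x, y, w) ∈ S) = 0 := e
      linarith
  refine ⟨S1, S2, hc1, hS1, hc2, hS2, ?_, ?_⟩
  · rw [Finset.disjoint_left]
    intro t h1 h2
    have e : ind (t ∈ S1) + ind (t ∈ S2) - ind (t ∈ S) = 0 := hg t (hS1.sub h1)
    rw [ind_pos h1, ind_pos h2] at e
    rcases ind_cases (t ∈ S) with ⟨-, h⟩ | ⟨-, h⟩ <;> omega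
  · ext t
    rw [Finset.mem_union]
    constructor
    · rintro (h | h)
      · have e : ind (t ∈ S1) + ind (t ∈ S2) - ind (t ∈ S) = 0 := hg t (hS1.sub h)
        rw [ind_pos h] at e
        rcases ind_cases (t ∈ S) with ⟨h1, -⟩ | ⟨-, h2⟩
        · exact h1
        · rcases ind_cases (t ∈ S2) with ⟨-, h3⟩ | ⟨-, h3⟩ <;> omega
      · have e : ind (t ∈ S1) + ind (t ∈ S2) - ind (t ∈ S) = 0 := hg t (hS2.sub h)
        rw [ind_pos h] at e
        rcases ind_cases (t ∈ S) with ⟨h1, -⟩ | ⟨-, h2⟩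
        · exact h1
        · rcases ind_cases (t ∈ S1) with ⟨-, h3⟩ | ⟨-, h3⟩ <;> omega
    · intro h
      have e : ind (t ∈ S1) + ind (t ∈ S2) - ind (t ∈ S) = 0 := hg t (hS.sub h)
      rw [ind_pos h] at e
      rcases ind_cases (t ∈ S1) with ⟨h1, -⟩ | ⟨-, h1⟩
      · exact Or.inl h1
      · rcases ind_cases (t ∈ S2) with ⟨h2, -⟩ | ⟨-, h2⟩
        · exact Or.inr h2
        · omega

end Pool.Agent.H3.RCR
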