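import Pool.Agent.H3.RCR.Util

/-! # RCR, module G14: gluing two realisations along a 3-cycle -/

namespace Pool.Agent.H3.RCR.G14

/-- the linear part of the affine map -/
noncomputable def lin (B C B' C' : Pt) (w : Pt) : Pt :=
  (dt w C / dt B C) • B' + (dt B w / dt B C) • C'

/-- the affine map -/
noncomputable def aff (a b c a' b' c' : Pt) (z : Pt) : Pt :=
  a' + lin (b - a) (c - a) (b' - a') (c' - a') (z - a)

theorem lin_sub (B C B' C' v w : Pt) : lin B C B' C' v - lin B C B' C' w = lin B C B' C' (v - w) := by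
  simp only [lin, dt]
  ext
  · simp; ring
  · simp; ring

theorem dt_lin (B C B' C' v w : Pt) (h : dt B C ≠ 0) :
    dt (lin B C B' C' v) (lin B C B' C' w) = dt B' C' / dt B C * dt v w := by
  have key : dt v C * dt B w - dt B v * dt w C = dt v w * dt B C := by
    simp only [dt]; ring
  have e : dt (lin B C B' C' v) (lin B C B' C' w) =
      (dt v C * dt B w - dt B v * dt w C) * dt B' C' / (dt B C * dt B C) := by
    have h' := h
    simp only [lin]
    generalize hD : dt B C = D at *
    generalize dt v C = s1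
    generalize dt B v = s2
    generalize dt w C = s3
    generalize dt B w = s4
    simp only [dt, Prod.fst_add, Prod.snd_add, Prod.smul_fst, Prod.smul_snd, smul_eq_mul]
    field_simp
    ring
  rw [e, key]
  field_simp

theorem orient_aff (a b c a' b' c' x y z : Pt) (h : orient a b c ≠ 0) :
    orient (aff a b c a' b' c' x) (aff a b c a' b' c' y) (aff a b c a' b' c' z) =
      orient a' b' c' / orient a b c * orient x y z := by
  have e : ∀ v w, aff a b c a' b' c' v - aff a b c a' b' c' w =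
      lin (b - a) (c - a) (b' - a') (c' - a') (v - w) := by
    intro v w
    simp only [aff]
    rw [add_sub_add_left_eq_sub, lin_sub, sub_sub_sub_cancel_right]
  simp only [orient]
  rw [e, e, dt_lin _ _ _ _ _ _ h]

theorem aff_a (a b c a' b' c' : Pt) : aff a b c a' b' c' a = a' := by
  simp [aff, lin, dt]

theorem aff_b (a b c a' b' c' : Pt) (h : orient a b c ≠ 0) : aff a b c a' b' c' b = b' := by
  have h' : dt (b - a) (c - a) ≠ 0 := h
  have h2 : dt (b - a) (b - a) = 0 := by simp only [dt]; ring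
  simp [aff, lin, h2, div_self h']

theorem aff_c (a b c a' b' c' : Pt) (h : orient a b c ≠ 0) : aff a b c a' b' c' c = c' := by
  have h' : dt (b - a) (c - a) ≠ 0 := h
  have h2 : dt (c - a) (c - a) = 0 := by simp only [dt]; ring
  simp [aff, lin, h2, div_self h']

theorem aff_inj (a b c a' b' c' : Pt) (h : orient a b c ≠ 0) (h' : orient a' b' c' ≠ 0) {x y : Pt}
    (e : aff a b c a' b' c' x = aff a b c a' b' c' y) : x = y := by
  have key : ∀ z, orient x y z = 0 := by
    intro z
    have h1 := orient_aff a b c a' b' c' x y z h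
    rw [e] at h1
    have h2 : orient (aff a b c a' b' c' y) (aff a b c a' b' c' y) (aff a b c a' b' c' z) = 0 := by
      simp [orient, dt]
    rw [h2] at h1
    rcases mul_eq_zero.1 h1.symm with h3 | h3
    · exact absurd h3 (div_ne_zero h' h)
    · exact h3
  have k1 := key (x + (1, 0))
  have k2 := key (x + (0, 1))
  simp [orient, dt] at k1 k2
  ext
  · linarith
  · linarith

theorem aff_seg (a b c a' b' c' x y z : Pt) (h : z ∈ openSegment ℝ x y) :
    aff a b c a' b' c' z ∈ openSegment ℝ (aff a b c a' b' c' x) (aff a b c a' b' c' y) := by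
  obtain ⟨s, t, hs, ht, hst, rfl⟩ := h
  refine ⟨s, t, hs, ht, hst, ?_⟩
  have hs' : s = 1 - t := by linarith
  subst hs'
  simp only [aff, lin, dt]
  ext
  · simp; ring
  · simp; ring

theorem orient_swap (x y z : Pt) : orient x z y = - orient x y z := by
  simp only [orient, dt]; ring

end G14

open G14

theorem g14 (h0 : A0Stmt) : G14Stmt := by
  intro F S a b c o p1 p2 hF hS hoF hoS hR1 hR2
  obtain ⟨-, -, -, hinn, haS, hbS, hcS, -, -, -, -⟩ := (h0.2 F a b c hF).2 S hS
  have hjab := (hS.jump a b).2 (Or.inl ⟨rfl, rfl⟩)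
  -- the triangle under the two realisations
  have hpos1 : 0 < orient (p1 a) (p1 b) (p1 c) := by
    refine hR1.pos (a, b, c) (Finset.mem_union_right _ (self_mem_rots _)) ?_
    intro hmem
    apply hoS
    have h1 : (a, b, c) ∈ F := by
      have : rots o ⊆ F := rotC_rots_subset hF.rot hoF
      exact this hmem
    obtain ⟨⟨c', hc'⟩, -⟩ := hjab
    have : c = c' := hF.uniq _ _ _ _ h1 (hS.sub hc')
    subst this
    exact mem_of_mem_rots hS.rot hmem hc'
  have hpos2 : 0 < orient (p2 a) (p2 b) (p2 c) := by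
    have := hR2.neg
    dsimp only at this
    rw [orient_swap] at this
    linarith
  have hne1 := hpos1.ne'
  have hne2 := hpos2.ne'
  classical
  let A : Pt → Pt := aff (p2 a) (p2 b) (p2 c) (p1 a) (p1 b) (p1 c)
  let p : ℕ → Pt := fun v => if v ∈ verts S then A (p2 v) else p1 v
  have hpS : ∀ v ∈ verts S, p v = A (p2 v) := fun v hv => by simp only [p, if_pos hv]
  have hpF : ∀ v ∈ verts (F \ S), p v = p1 v := by
    intro v hv
    by_cases hvS : v ∈ verts S
    · rw [hpS v hvS]
      by_cases hva : v = a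
      · subst hva; exact aff_a _ _ _ _ _ _
      by_cases hvb : v = b
      · subst hvb; exact aff_b _ _ _ _ _ _ hne2
      by_cases hvc : v = c
      · subst hvc; exact aff_c _ _ _ _ _ _ hne2
      exfalso
      obtain ⟨x, y, hxy⟩ := mem_verts.1 hv
      rw [Finset.mem_sdiff] at hxy
      exact hxy.2 (hinn v hvS hva hvb hvc x y hxy.1)
    · simp only [p, if_neg hvS]
  have hrotFS : RotC (F \ S) := rotC_sdiff hF.rot hS.rot
  have hor : ∀ t ∈ F \ S, orient (p t.1) (p t.2.1) (p t.2.2) =
      orient (p1 t.1) (p1 t.2.1) (p1 t.2.2) := by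
    intro t ht
    rw [hpF _ (isV_mem_verts hrotFS ht (Or.inl rfl)),
      hpF _ (isV_mem_verts hrotFS ht (Or.inr (Or.inl rfl))),
      hpF _ (isV_mem_verts hrotFS ht (Or.inr (Or.inr rfl)))]
  refine ⟨p, ⟨hoF, ?_, ?_⟩, hpF, ?_⟩
  · rw [hor o (Finset.mem_sdiff.2 ⟨hoF, hoS⟩)]
    exact hR1.neg
  · intro t htF hto
    by_cases htS : t ∈ S
    · rw [hpS _ (isV_mem_verts hS.rot htS (Or.inl rfl)),
        hpS _ (isV_mem_verts hS.rot htS (Or.inr (Or.inl rfl))),
        hpS _ (isV_mem_verts hS.rot htS (Or.inr (Or.inr rfl)))]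
      have := orient_aff (p2 a) (p2 b) (p2 c) (p1 a) (p1 b) (p1 c) (p2 t.1) (p2 t.2.1) (p2 t.2.2)
        hne2
      show 0 < orient (aff _ _ _ _ _ _ _) (aff _ _ _ _ _ _ _) (aff _ _ _ _ _ _ _)
      rw [this]
      refine mul_pos (div_pos hpos1 hpos2) ?_
      refine hR2.pos t (Finset.mem_union_left _ htS) ?_
      intro hmem
      have h1 : (a, c, b) ∈ S := mem_of_mem_rots hS.rot hmem htS
      have h2 : (b, a, c) ∈ S := hS.rot _ _ _ (hS.rot _ _ _ h1)
      obtain ⟨-, d, hd, hdS⟩ := hjab
      have : c = d := hF.uniq _ _ _ _ (hS.sub h2) hd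
      subst this
      exact hdS h2
    · rw [hor t (Finset.mem_sdiff.2 ⟨htF, htS⟩)]
      exact hR1.pos t (Finset.mem_union_left _ (Finset.mem_sdiff.2 ⟨htF, htS⟩)) hto
  · intro t ht hb
    unfold Btw
    rw [hpS _ (ht _ (Or.inl rfl)), hpS _ (ht _ (Or.inr (Or.inl rfl))),
      hpS _ (ht _ (Or.inr (Or.inr rfl)))]
    exact ⟨fun e => hb.1 (aff_inj _ _ _ _ _ _ hne2 hne1 e), aff_seg _ _ _ _ _ _ _ _ _ hb.2⟩

end Pool.Agent.H3.RCR
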